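import Pool.Agent.Helper10.SQ.C1
import Pool.Agent.Helper10.SQ.C2

/-! SQX-E1: effective form of the count of palindromes in a class modulo a small modulus. -/

namespace Pool.Agent.Helper55.SQX

open Finset Pool.Agent.Helper10 Pool.Agent.Helper10.P5 Pool.Agent.Helper10.P4
  Pool.Agent.Helper10.SQ

theorem c1_eff (ρ : ℝ) (hρ0 : 0 < ρ)
    (hs : ∀ κ T q a k : ℕ, q.Coprime κ → 1 < q → q.Coprime 10 → a.Coprime q → q ≤ 10 ^ k →
      GF κ T (Icc 1 T) ((a : ℝ) / q) ≤ ρ ^ (T / (2 * k + 3)))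
    (M c c1 r k n : ℕ) (hM : M.Coprime 10) (hMk : M ≤ 10 ^ k) (hc : 1 ≤ c) (hc' : c < 10)
    (hc1 : c1 < 10) (hn : 2 ≤ n) :
    |(((Pal n).filter (fun P => P % 10 = c ∧ P / 10 % 10 = c1 ∧ P ≡ r [MOD M])).card : ℝ) -
      10 ^ n / (10 * M)| ≤ 10 ^ n * M * ρ ^ ((n - 2) / (2 * k + 3)) := by
  have hM0 : 0 < M := by
    rcases Nat.eq_zero_or_pos M with h | h
    · rw [h] at hM
      norm_num at hM
    · exact h
  have hMR : (0 : ℝ) < M := by exact_mod_cast hM0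
  have hMR1 : (1 : ℝ) ≤ M := by exact_mod_cast hM0
  obtain ⟨T, rfl⟩ : ∃ T, n = T + 2 := ⟨n - 2, by omega⟩
  rw [Nat.add_sub_cancel]
  set B : ℝ := ∑ e ∈ M.divisors.erase 1, (e : ℝ) with hB
  have hB0 : 0 ≤ B := Finset.sum_nonneg fun _ _ => Nat.cast_nonneg _
  have hBM : B ≤ (M : ℝ) * M := by
    calc B ≤ ∑ e ∈ M.divisors.erase 1, (M : ℝ) := by
          apply Finset.sum_le_sum
          intro e he
          rw [Finset.mem_erase, Nat.mem_divisors] at he
          exact_mod_cast Nat.le_of_dvd hM0 he.2.1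
      _ = ((M.divisors.erase 1).card : ℝ) * M := by rw [Finset.sum_const, nsmul_eq_mul]
      _ ≤ (M : ℝ) * M := by
          apply mul_le_mul_of_nonneg_right _ hMR.le
          have h1 : (M.divisors.erase 1).card ≤ M :=
            (Finset.card_erase_le).trans (Nat.card_divisors_le_self M)
          exact_mod_cast h1
  have hcnt : ∀ S : ℕ, |(cnt5 100 T S M : ℝ) - 10 ^ T / M| ≤
      10 ^ T / M * (B * ρ ^ (T / (2 * k + 3))) := by
    intro S
    refine (count5 100 T S M hM0).trans ?_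
    apply mul_le_mul_of_nonneg_left _ (by positivity)
    rw [hB, Finset.sum_mul]
    apply Finset.sum_le_sum
    intro e he
    rw [Finset.mem_erase, Nat.mem_divisors] at he
    have he0 : e ≠ 0 := by
      rintro rfl
      have := he.2.1
      rw [zero_dvd_iff] at this
      omega
    have hle := Nat.le_of_dvd hM0 he.2.1
    exact c1_Psi ρ hρ0 T e k hs (by omega) (Nat.Coprime.coprime_dvd_left he.2.1 hM) (hle.trans hMk)
  rw [c1_count T M c c1 r hM0 hc hc' hc1]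
  have h1 : |((∑ d ∈ range 10, cnt5 100 T (c1_S T c c1 d M r) M : ℕ) : ℝ) - 10 * (10 ^ T / M)| ≤
      10 * (10 ^ T / M * (B * ρ ^ (T / (2 * k + 3)))) := by
    have e1 : (10 : ℝ) * (10 ^ T / M) = ∑ d ∈ range 10, (10 : ℝ) ^ T / M := by
      rw [Finset.sum_const, Finset.card_range, nsmul_eq_mul]
      norm_num
    rw [e1]
    push_cast
    rw [← Finset.sum_sub_distrib]
    refine (Finset.abs_sum_le_sum_abs _ _).trans ?_
    calc _ ≤ ∑ d ∈ range 10, (10 : ℝ) ^ T / M * (B * ρ ^ (T / (2 * k + 3))) :=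
          Finset.sum_le_sum fun d _ => hcnt _
      _ = _ := by
          rw [Finset.sum_const, Finset.card_range, nsmul_eq_mul]
          norm_num
  have e2 : (10 : ℝ) ^ (T + 2) / (10 * M) = 10 * (10 ^ T / M) := by
    rw [pow_add]
    field_simp
  rw [e2]
  refine h1.trans ?_
  have hr : 0 < ρ ^ (T / (2 * k + 3)) := pow_pos hρ0 _
  calc 10 * ((10 : ℝ) ^ T / M * (B * ρ ^ (T / (2 * k + 3))))
      ≤ 10 * ((10 : ℝ) ^ T / M * ((M * M) * ρ ^ (T / (2 * k + 3)))) := by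
        apply mul_le_mul_of_nonneg_left _ (by norm_num)
        apply mul_le_mul_of_nonneg_left _ (by positivity)
        exact mul_le_mul_of_nonneg_right hBM hr.le
    _ = 10 ^ (T + 1) * M * ρ ^ (T / (2 * k + 3)) := by
        rw [pow_succ]
        field_simp
    _ ≤ 10 ^ (T + 2) * M * ρ ^ (T / (2 * k + 3)) := by
        apply mul_le_mul_of_nonneg_right _ hr.le
        apply mul_le_mul_of_nonneg_right _ hMR.le
        exact pow_le_pow_right₀ (by norm_num) (by omega)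

/-- good palindromes divisible by `d ^ 2` -/
noncomputable def cg (n d : ℕ) : ℕ := ((Pal n).filter (fun P => ¬ 4 ∣ P ∧ ¬ 25 ∣ P ∧ d ^ 2 ∣ P)).card

theorem cg_eff (ρ : ℝ) (hρ0 : 0 < ρ)
    (hs : ∀ κ T q a k : ℕ, q.Coprime κ → 1 < q → q.Coprime 10 → a.Coprime q → q ≤ 10 ^ k →
      GF κ T (Icc 1 T) ((a : ℝ) / q) ≤ ρ ^ (T / (2 * k + 3)))
    (d k n : ℕ) (hd : d.Coprime 10) (hdk : d ^ 2 ≤ 10 ^ k) (hn : 2 ≤ n) :
    |(cg n d : ℝ) - 34 / 5 * 10 ^ n / (d : ℝ) ^ 2| ≤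
      68 * (10 ^ n * (d : ℝ) ^ 2 * ρ ^ ((n - 2) / (2 * k + 3))) := by
  classical
  obtain ⟨G, hG, hGcard⟩ := exists_goodPairs
  have hkey : (cg n d : ℝ) = ∑ x ∈ G,
      (((Pal n).filter (fun P => P % 10 = x.1 ∧ P / 10 % 10 = x.2 ∧
        P ≡ 0 [MOD d ^ 2])).card : ℝ) := by
    unfold cg
    rw [← Nat.cast_sum]
    congr 1
    have hmaps : ((((Pal n).filter (fun P => ¬ 4 ∣ P ∧ ¬ 25 ∣ P ∧ d ^ 2 ∣ P)) : Finset ℕ) :
        Set ℕ).MapsTo (fun P => (P % 10, P / 10 % 10)) (G : Set (ℕ × ℕ)) := by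
      intro P hP
      rw [Finset.mem_coe, Finset.mem_filter] at hP
      have h0 := pal_mod_ten_ne_zero hP.1
      rw [Finset.mem_coe, hG]
      refine ⟨Nat.mod_lt _ (by norm_num), Nat.mod_lt _ (by norm_num), h0, ?_, ?_⟩
      · intro h
        exact hP.2.1 (by simp only at h; omega)
      · intro h
        exact hP.2.2.1 (by simp only at h; omega)
    rw [Finset.card_eq_sum_card_fiberwise hmaps]
    apply Finset.sum_congr rfl
    intro x hx
    congr 1
    rw [Finset.filter_filter]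
    apply Finset.filter_congr
    intro P hP
    rw [hG] at hx
    obtain ⟨hx1, hx2, hx3, hx4, hx5⟩ := hx
    rw [Nat.modEq_zero_iff_dvd]
    constructor
    · rintro ⟨⟨h1, h2, h3⟩, h4⟩
      have h5 : P % 10 = x.1 := congrArg Prod.fst h4
      have h6 : P / 10 % 10 = x.2 := congrArg Prod.snd h4
      exact ⟨h5, h6, h3⟩
    · rintro ⟨h1, h2, h3⟩
      refine ⟨⟨?_, ?_, h3⟩, Prod.ext h1 h2⟩
      · intro h
        exact hx4 (by omega)
      · intro h
        exact hx5 (by omega)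
  have hd0 : (d : ℝ) ≠ 0 := by
    have : d ≠ 0 := by
      rintro rfl
      norm_num at hd
    exact_mod_cast this
  have hmain : 34 / 5 * 10 ^ n / (d : ℝ) ^ 2 = ∑ x ∈ G, (10 : ℝ) ^ n / (10 * ((d ^ 2 : ℕ) : ℝ)) := by
    rw [Finset.sum_const, hGcard, nsmul_eq_mul]
    push_cast
    field_simp
    norm_num
  rw [hkey, hmain, ← Finset.sum_sub_distrib]
  refine (Finset.abs_sum_le_sum_abs _ _).trans ?_
  calc ∑ x ∈ G, |(((Pal n).filter (fun P => P % 10 = x.1 ∧ P / 10 % 10 = x.2 ∧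
        P ≡ 0 [MOD d ^ 2])).card : ℝ) - (10 : ℝ) ^ n / (10 * ((d ^ 2 : ℕ) : ℝ))|
      ≤ ∑ x ∈ G, 10 ^ n * ((d ^ 2 : ℕ) : ℝ) * ρ ^ ((n - 2) / (2 * k + 3)) := by
        apply Finset.sum_le_sum
        intro x hx
        rw [hG] at hx
        exact c1_eff ρ hρ0 hs (d ^ 2) x.1 x.2 0 k n (Nat.Coprime.pow_left 2 hd) hdk
          (Nat.pos_of_ne_zero hx.2.2.1) hx.1 hx.2.1 hn
    _ = 68 * (10 ^ n * (d : ℝ) ^ 2 * ρ ^ ((n - 2) / (2 * k + 3))) := by
        rw [Finset.sum_const, hGcard, nsmul_eq_mul]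
        push_cast
        ring

end Pool.Agent.Helper55.SQX
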