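import Mathlib

/-! SQX-E3: the Moebius identity over square divisors. -/

namespace Pool.Agent.Helper55.SQX

open Finset

lemma dvd_of_sq_dvd (a b d : ℕ) (ha : Squarefree a) (hb : b ≠ 0) (h : d ^ 2 ∣ b ^ 2 * a) : d ∣ b := by
  set g := Nat.gcd d b with hg
  have hg0 : 0 < g := Nat.gcd_pos_of_pos_right _ (Nat.pos_of_ne_zero hb)
  obtain ⟨d', hd'⟩ : g ∣ d := Nat.gcd_dvd_left _ _
  obtain ⟨b', hb'⟩ : g ∣ b := Nat.gcd_dvd_right _ _
  have hcop : Nat.Coprime d' b' := by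
    have h1 : Nat.gcd d b = g * Nat.gcd d' b' := by
      conv_lhs => rw [hd', hb']
      exact Nat.gcd_mul_left _ _ _
    have h2 : g * Nat.gcd d' b' = g * 1 := by rw [← h1, mul_one]
    exact Nat.eq_of_mul_eq_mul_left hg0 h2
  have h3 : g ^ 2 * d' ^ 2 ∣ g ^ 2 * (b' ^ 2 * a) := by
    have e1 : g ^ 2 * d' ^ 2 = d ^ 2 := by rw [hd']; ring
    have e2 : g ^ 2 * (b' ^ 2 * a) = b ^ 2 * a := by rw [hb']; ring
    rw [e1, e2]
    exact h
  have h4 : d' ^ 2 ∣ b' ^ 2 * a := Nat.dvd_of_mul_dvd_mul_left (by positivity) h3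
  have h5 : d' ^ 2 ∣ a := (Nat.Coprime.pow 2 2 hcop).dvd_of_dvd_mul_left h4
  have h6 : IsUnit d' := ha d' (by rw [← pow_two]; exact h5)
  have h7 : d' = 1 := Nat.isUnit_iff.mp h6
  rw [hd', h7, mul_one]
  exact ⟨b', hb'⟩

lemma sum_mu (b : ℕ) : ∑ d ∈ b.divisors, (ArithmeticFunction.moebius d : ℤ) = if b = 1 then 1 else 0 := by
  have h : (ArithmeticFunction.moebius * (ArithmeticFunction.zeta : ArithmeticFunction ℤ)) b =
      (1 : ArithmeticFunction ℤ) b := by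
    rw [ArithmeticFunction.moebius_mul_coe_zeta]
  rw [ArithmeticFunction.coe_mul_zeta_apply, ArithmeticFunction.one_apply] at h
  exact h

theorem mu_sq_sum (P N : ℕ) (hP : P ≠ 0) (h4 : ¬ 4 ∣ P) (h25 : ¬ 25 ∣ P)
    (hN : ∀ d : ℕ, d ^ 2 ∣ P → d ≤ N) :
    ∑ d ∈ ((Icc 1 N).filter (fun d : ℕ => d.Coprime 10)).filter (fun d => d ^ 2 ∣ P),
      (ArithmeticFunction.moebius d : ℤ) = if Squarefree P then 1 else 0 := by
  obtain ⟨a, b, hab, ha⟩ := Nat.sq_mul_squarefree P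
  have hb : b ≠ 0 := by
    rintro rfl
    apply hP
    rw [← hab]
    simp
  have hset : ((Icc 1 N).filter (fun d : ℕ => d.Coprime 10)).filter (fun d => d ^ 2 ∣ P) =
      b.divisors := by
    ext d
    rw [mem_filter, mem_filter, mem_Icc, Nat.mem_divisors]
    constructor
    · rintro ⟨-, h1⟩
      refine ⟨dvd_of_sq_dvd a b d ha hb ?_, hb⟩
      rw [hab]
      exact h1
    · rintro ⟨h1, -⟩
      have h2 : d ^ 2 ∣ P := by
        rw [← hab]
        exact Dvd.dvd.mul_right (pow_dvd_pow_of_dvd h1 2) a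
      refine ⟨⟨⟨?_, hN d h2⟩, ?_⟩, h2⟩
      · exact Nat.pos_of_dvd_of_pos h1 (Nat.pos_of_ne_zero hb)
      · rw [show (10 : ℕ) = 2 * 5 by norm_num]
        apply Nat.Coprime.mul_right
        · rw [Nat.coprime_comm, Nat.Prime.coprime_iff_not_dvd Nat.prime_two]
          intro h3
          exact h4 ((pow_dvd_pow_of_dvd h3 2).trans h2)
        · rw [Nat.coprime_comm, Nat.Prime.coprime_iff_not_dvd Nat.prime_five]
          intro h3
          exact h25 ((pow_dvd_pow_of_dvd h3 2).trans h2)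
  rw [hset, sum_mu]
  have hiff : b = 1 ↔ Squarefree P := by
    constructor
    · rintro rfl
      rw [← hab]
      simpa using ha
    · intro h1
      have h2 : b * b ∣ P := ⟨a, by rw [← hab]; ring⟩
      exact Nat.isUnit_iff.mp (h1 b h2)
  simp only [hiff]

end Pool.Agent.Helper55.SQX
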