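import Pool.Agent.Helper10.SQ.B1
import Pool.Agent.Helper10.SQ.Defs
import Mathlib

/-! SQX-Tail: palindromes with a large square divisor, counted with the number of square divisors. -/

namespace Pool.Agent.Helper55.SQX

open Finset Pool.Agent.Helper10 Pool.Agent.Helper10.P5 Pool.Agent.Helper10.P4
  Pool.Agent.Helper10.SQ

theorem tail_sum (n D Z : ℕ) (hZ : 1 ≤ Z) (η : ℝ)
    (h1 : ∑ d ∈ (Icc 1 D).filter (fun d : ℕ => d.Coprime 10),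
      |((cl n (d ^ 2) 0 : ℕ) : ℝ) - 9 * 10 ^ n / ((d : ℝ) ^ 2)| ≤ η) :
    ((∑ d ∈ ((Icc 1 D).filter (fun d : ℕ => d.Coprime 10)).filter
      (fun d => Z < d), cl n (d ^ 2) 0 : ℕ) : ℝ) ≤ 18 / Z * 10 ^ n + η := by
  push_cast
  have hZR : (0 : ℝ) < Z := by exact_mod_cast hZ
  have h2 : ∀ d ∈ ((Icc 1 D).filter (fun d : ℕ => d.Coprime 10)).filter (fun d => Z < d),
      ((cl n (d ^ 2) 0 : ℕ) : ℝ) ≤ 9 * 10 ^ n * ((d : ℝ) ^ 2)⁻¹ +
        |((cl n (d ^ 2) 0 : ℕ) : ℝ) - 9 * 10 ^ n / ((d : ℝ) ^ 2)| := by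
    intro d _
    have := le_abs_self (((cl n (d ^ 2) 0 : ℕ) : ℝ) - 9 * 10 ^ n / ((d : ℝ) ^ 2))
    rw [div_eq_mul_inv] at this ⊢
    linarith
  refine (sum_le_sum h2).trans ?_
  rw [sum_add_distrib, ← mul_sum]
  have h3 : ∑ d ∈ ((Icc 1 D).filter (fun d : ℕ => d.Coprime 10)).filter (fun d => Z < d),
      |((cl n (d ^ 2) 0 : ℕ) : ℝ) - 9 * 10 ^ n / ((d : ℝ) ^ 2)| ≤ η := by
    refine le_trans (sum_le_sum_of_subset_of_nonneg (filter_subset _ _) ?_) h1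
    intro _ _ _
    exact abs_nonneg _
  have h4 : ∑ d ∈ ((Icc 1 D).filter (fun d : ℕ => d.Coprime 10)).filter (fun d => Z < d),
      ((d : ℝ) ^ 2)⁻¹ ≤ 2 / Z := by
    have h5 := sum_Ioo_inv_sq_le (α := ℝ) Z (D + 1)
    have h6 : (2 : ℝ) / (Z + 1) ≤ 2 / Z :=
      div_le_div_of_nonneg_left (by norm_num) hZR (by linarith)
    refine le_trans (sum_le_sum_of_subset_of_nonneg ?_ ?_) (h5.trans h6)
    · intro d hd
      rw [mem_filter, mem_filter, mem_Icc] at hd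
      rw [mem_Ioo]
      omega
    · intro _ _ _
      positivity
  have h7 : 9 * (10 : ℝ) ^ n * ∑ d ∈ ((Icc 1 D).filter (fun d : ℕ => d.Coprime 10)).filter
      (fun d => Z < d), ((d : ℝ) ^ 2)⁻¹ ≤ 9 * 10 ^ n * (2 / Z) :=
    mul_le_mul_of_nonneg_left h4 (by positivity)
  have h8 : 9 * (10 : ℝ) ^ n * (2 / Z) = 18 / Z * 10 ^ n := by ring
  linarith

theorem cof_card (n m N P : ℕ) (hm : m ≤ n) (hP : P ∈ Pal n) :
    ((Icc 1 N).filter (fun d : ℕ => 10 ^ m ≤ d ∧ d ^ 2 ∣ P)).card ≤ 10 ^ (2 * (n - m) + 1) := by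
  classical
  have h3 : P < 10 ^ (2 * n + 1) := by
    unfold Pal at hP
    rw [Finset.mem_filter, Finset.mem_range] at hP
    exact hP.1
  have hP0 : P ≠ 0 := by
    rintro rfl
    unfold Pal at hP
    rw [Finset.mem_filter] at hP
    have h := hP.2.1
    simp at h
  rw [← Finset.card_range (10 ^ (2 * (n - m) + 1))]
  apply Finset.card_le_card_of_injOn (fun d => P / d ^ 2)
  · intro d hd
    rw [Finset.mem_coe, Finset.mem_filter, Finset.mem_Icc] at hd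
    rw [Finset.mem_coe, Finset.mem_range]
    have h4 : 10 ^ (2 * m) ≤ d ^ 2 := by
      calc 10 ^ (2 * m) = (10 ^ m) ^ 2 := by rw [← pow_mul, mul_comm]
        _ ≤ d ^ 2 := Nat.pow_le_pow_left hd.2.1 2
    have h5 : 0 < d ^ 2 := lt_of_lt_of_le (by positivity) h4
    rw [Nat.div_lt_iff_lt_mul h5]
    calc P < 10 ^ (2 * n + 1) := h3
      _ = 10 ^ (2 * (n - m) + 1) * 10 ^ (2 * m) := by
          rw [← pow_add]; congr 1; omega
      _ ≤ 10 ^ (2 * (n - m) + 1) * d ^ 2 := Nat.mul_le_mul_left _ h4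
  · intro d hd d' hd' heq
    rw [Finset.mem_coe, Finset.mem_filter, Finset.mem_Icc] at hd hd'
    simp only at heq
    have e1 : P / d ^ 2 * d ^ 2 = P := Nat.div_mul_cancel hd.2.2
    have e2 : P / d ^ 2 * d' ^ 2 = P := by rw [heq]; exact Nat.div_mul_cancel hd'.2.2
    have h0 : 0 < P / d ^ 2 := by
      rcases Nat.eq_zero_or_pos (P / d ^ 2) with h | h
      · rw [h, Nat.zero_mul] at e1
        exact absurd e1.symm hP0
      · exact h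
    have e3 : d ^ 2 = d' ^ 2 := Nat.eq_of_mul_eq_mul_left h0 (e1.trans e2.symm)
    exact Nat.pow_left_injective (by norm_num : (2 : ℕ) ≠ 0) e3

theorem large_sum (n m N : ℕ) (hm : m ≤ n) :
    ∑ P ∈ Pal n, ((Icc 1 N).filter (fun d : ℕ => 10 ^ m ≤ d ∧ d ^ 2 ∣ P)).card ≤
      10 ^ (2 * (n - m) + 1) * 10 ^ (n / 2 + 1) * 10 ^ (2 * (n - m) + 1) := by
  classical
  have h2 := sqB1 n (n - m) (Nat.sub_le _ _)
  rw [Nat.sub_sub_self hm] at h2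
  have h1 : ∑ P ∈ Pal n, ((Icc 1 N).filter (fun d : ℕ => 10 ^ m ≤ d ∧ d ^ 2 ∣ P)).card =
      ∑ P ∈ (Pal n).filter (fun P => ∃ d : ℕ, 10 ^ m ≤ d ∧ d ^ 2 ∣ P),
        ((Icc 1 N).filter (fun d : ℕ => 10 ^ m ≤ d ∧ d ^ 2 ∣ P)).card := by
    rw [Finset.sum_filter]
    apply Finset.sum_congr rfl
    intro P _
    split_ifs with h
    · rfl
    · rw [Finset.card_eq_zero, Finset.filter_eq_empty_iff]
      intro d _ hd
      exact h ⟨d, hd⟩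
  rw [h1]
  calc ∑ P ∈ (Pal n).filter (fun P => ∃ d : ℕ, 10 ^ m ≤ d ∧ d ^ 2 ∣ P),
        ((Icc 1 N).filter (fun d : ℕ => 10 ^ m ≤ d ∧ d ^ 2 ∣ P)).card
      ≤ ∑ P ∈ (Pal n).filter (fun P => ∃ d : ℕ, 10 ^ m ≤ d ∧ d ^ 2 ∣ P), 10 ^ (2 * (n - m) + 1) := by
        apply Finset.sum_le_sum
        intro P hP
        rw [Finset.mem_filter] at hP
        exact cof_card n m N P hm hP.1
    _ = ((Pal n).filter (fun P => ∃ d : ℕ, 10 ^ m ≤ d ∧ d ^ 2 ∣ P)).card * 10 ^ (2 * (n - m) + 1) := by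
        rw [Finset.sum_const, smul_eq_mul]
    _ ≤ _ := by
        apply Nat.mul_le_mul_right
        refine le_trans (le_of_eq ?_) h2
        congr!

theorem small_sum (n D Z : ℕ) :
    ∑ P ∈ Pal n, ((((Icc 1 D).filter (fun d : ℕ => d.Coprime 10)).filter (fun d => Z < d)).filter
      (fun d => d ^ 2 ∣ P)).card =
    ∑ d ∈ ((Icc 1 D).filter (fun d : ℕ => d.Coprime 10)).filter (fun d => Z < d),
      cl n (d ^ 2) 0 := by
  classical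
  unfold cl
  simp_rw [Finset.card_filter]
  rw [Finset.sum_comm]
  apply Finset.sum_congr rfl
  intro d _
  apply Finset.sum_congr rfl
  intro P _
  simp only [Nat.modEq_zero_iff_dvd]

theorem split_sum (n m N Z : ℕ) :
    ∑ P ∈ Pal n, ((Icc 1 N).filter (fun d : ℕ => Z < d ∧ d.Coprime 10 ∧ d ^ 2 ∣ P)).card ≤
      ∑ d ∈ ((Icc 1 (10 ^ m)).filter (fun d : ℕ => d.Coprime 10)).filter (fun d => Z < d),
        cl n (d ^ 2) 0 +
      ∑ P ∈ Pal n, ((Icc 1 N).filter (fun d : ℕ => 10 ^ m ≤ d ∧ d ^ 2 ∣ P)).card := by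
  classical
  rw [← small_sum, ← Finset.sum_add_distrib]
  apply Finset.sum_le_sum
  intro P _
  refine (Finset.card_le_card ?_).trans (Finset.card_union_le _ _)
  intro d hd
  rw [Finset.mem_filter, Finset.mem_Icc] at hd
  rw [Finset.mem_union, Finset.mem_filter, Finset.mem_filter, Finset.mem_filter, Finset.mem_filter,
    Finset.mem_Icc, Finset.mem_Icc]
  rcases le_total d (10 ^ m) with h | h
  · exact Or.inl ⟨⟨⟨⟨hd.1.1, h⟩, hd.2.2.1⟩, hd.2.1⟩, hd.2.2.2⟩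
  · exact Or.inr ⟨hd.1, h, hd.2.2.2⟩

/-- a power of ten against `exp (c sqrt n)` -/
theorem pow_ge_exp (c : ℝ) (C : ℝ) (hC : 0 < C) :
    ∃ n0 : ℕ, ∀ n : ℕ, n0 ≤ n → C * Real.exp (c * √(n : ℝ)) ≤ (10 : ℝ) ^ (n / 10) := by
  obtain ⟨k, hk⟩ := exists_nat_ge (10 * (|c| + |Real.log C| + 3))
  refine ⟨k ^ 2 + 1, fun n hn => ?_⟩
  have hk0 : (0 : ℝ) ≤ k := Nat.cast_nonneg k
  have hsq : (k : ℝ) ≤ √(n : ℝ) := by
    apply Real.le_sqrt_of_sq_le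
    exact_mod_cast (by omega : k ^ 2 ≤ n)
  have hs0 : (0 : ℝ) ≤ √(n : ℝ) := Real.sqrt_nonneg _
  have hnn : √(n : ℝ) * √(n : ℝ) = n := Real.mul_self_sqrt (Nat.cast_nonneg n)
  have habs : 0 ≤ |c| := abs_nonneg c
  have habs2 : 0 ≤ |Real.log C| := abs_nonneg _
  have h1s : (1 : ℝ) ≤ √(n : ℝ) := by linarith
  have hdiv : ((n : ℝ) - 9) / 10 ≤ ((n / 10 : ℕ) : ℝ) := by
    have : n ≤ 10 * (n / 10) + 9 := by omega
    have h : (n : ℝ) ≤ 10 * ((n / 10 : ℕ) : ℝ) + 9 := by exact_mod_cast this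
    linarith
  have h10 : (1 : ℝ) ≤ Real.log 10 := by
    rw [Real.le_log_iff_exp_le (by norm_num)]
    have := Real.exp_one_lt_d9
    linarith
  have hkey : Real.log C + c * √(n : ℝ) ≤ ((n / 10 : ℕ) : ℝ) * Real.log 10 := by
    have e1 : Real.log C ≤ |Real.log C| * √(n : ℝ) := by
      calc Real.log C ≤ |Real.log C| := le_abs_self _
        _ = |Real.log C| * 1 := (mul_one _).symm
        _ ≤ |Real.log C| * √(n : ℝ) := mul_le_mul_of_nonneg_left h1s habs2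
    have e2 : c * √(n : ℝ) ≤ |c| * √(n : ℝ) := mul_le_mul_of_nonneg_right (le_abs_self c) hs0
    have e3 : (|c| + |Real.log C| + 3) * √(n : ℝ) ≤ (n : ℝ) / 10 := by
      have : 10 * (|c| + |Real.log C| + 3) * √(n : ℝ) ≤ √(n : ℝ) * √(n : ℝ) :=
        mul_le_mul_of_nonneg_right (hk.trans hsq) hs0
      linarith
    have e4 : ((n : ℝ) - 9) / 10 ≤ ((n / 10 : ℕ) : ℝ) * Real.log 10 := by
      calc ((n : ℝ) - 9) / 10 ≤ ((n / 10 : ℕ) : ℝ) := hdiv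
        _ = ((n / 10 : ℕ) : ℝ) * 1 := (mul_one _).symm
        _ ≤ _ := mul_le_mul_of_nonneg_left h10 (Nat.cast_nonneg _)
    nlinarith
  calc C * Real.exp (c * √(n : ℝ)) = Real.exp (Real.log C + c * √(n : ℝ)) := by
        rw [Real.exp_add, Real.exp_log hC]
    _ ≤ Real.exp (((n / 10 : ℕ) : ℝ) * Real.log 10) := Real.exp_le_exp.mpr hkey
    _ = (10 : ℝ) ^ (n / 10) := by
        rw [Real.exp_nat_mul, Real.exp_log (by norm_num)]

/-- constants are absorbed in the exponent -/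
theorem const_absorb (c : ℝ) (hc : 0 < c) (C : ℝ) (hC : 0 < C) :
    ∃ n0 : ℕ, ∀ n : ℕ, n0 ≤ n →
      C * Real.exp (-(c * √(n : ℝ))) ≤ Real.exp (-(c / 2 * √(n : ℝ))) := by
  obtain ⟨k, hk⟩ := exists_nat_ge (2 * |Real.log C| / c)
  refine ⟨k ^ 2, fun n hn => ?_⟩
  have hsq : (k : ℝ) ≤ √(n : ℝ) := by
    apply Real.le_sqrt_of_sq_le
    exact_mod_cast hn
  have h1 : 2 * |Real.log C| ≤ c * √(n : ℝ) := by
    have h2 := hk.trans hsq
    rw [div_le_iff₀ hc] at h2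
    linarith
  have h3 : Real.log C ≤ |Real.log C| := le_abs_self _
  calc C * Real.exp (-(c * √(n : ℝ))) = Real.exp (Real.log C + -(c * √(n : ℝ))) := by
        rw [Real.exp_add, Real.exp_log hC]
    _ ≤ Real.exp (-(c / 2 * √(n : ℝ))) := by
        apply Real.exp_le_exp.mpr
        linarith

theorem tail (hB : ∃ c : ℝ, 0 < c ∧ ∃ n0 : ℕ, ∀ n : ℕ, n0 ≤ n → ∀ D : ℕ,
      (D : ℝ) ≤ (10 : ℝ) ^ ((1 - 1 / 10 : ℝ) * (n : ℝ)) → ∀ a : ℕ → ℕ,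
      ∑ d ∈ (Icc 1 D).filter (fun d : ℕ => d.Coprime 10),
        |((cl n (d ^ 2) (a d) : ℕ) : ℝ) - 9 * 10 ^ n / ((d : ℝ) ^ 2)| ≤
          (10 : ℝ) ^ n * Real.exp (-(c * √(n : ℝ))))
    (c' : ℝ) (hc' : 0 < c') : ∃ c : ℝ, 0 < c ∧ ∃ n0 : ℕ, ∀ n : ℕ, n0 ≤ n → ∀ Z N : ℕ,
      Real.exp (c' * √(n : ℝ)) ≤ Z →
      ∑ P ∈ Pal n, (((Icc 1 N).filter (fun d : ℕ => Z < d ∧ d.Coprime 10 ∧ d ^ 2 ∣ P)).card : ℝ) ≤
        (10 : ℝ) ^ n * Real.exp (-(c * √(n : ℝ))) := by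
  obtain ⟨c1, hc1, n1, h1⟩ := hB
  set c2 := min c1 c' with hc2
  have hc20 : 0 < c2 := lt_min hc1 hc'
  obtain ⟨n2, h2⟩ := pow_ge_exp c2 (10 ^ 7) (by norm_num)
  obtain ⟨n3, h3⟩ := const_absorb c2 hc20 20 (by norm_num)
  refine ⟨c2 / 2, by positivity, n1 + n2 + n3 + 1, fun n hn Z N hZ => ?_⟩
  have hs0 : (0 : ℝ) ≤ √(n : ℝ) := Real.sqrt_nonneg _
  have hZ1R : (1 : ℝ) ≤ Z := le_trans (Real.one_le_exp (by positivity)) hZ
  have hZ1 : 1 ≤ Z := by exact_mod_cast hZ1R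
  have hZ0R : (0 : ℝ) < Z := by linarith
  set m := 9 * n / 10 with hm
  have hmn : m ≤ n := by omega
  have hDR : ((10 ^ m : ℕ) : ℝ) ≤ (10 : ℝ) ^ ((1 - 1 / 10 : ℝ) * (n : ℝ)) := by
    push_cast
    rw [← Real.rpow_natCast]
    apply Real.rpow_le_rpow_of_exponent_le (by norm_num)
    have e1 : (9 * n / 10) * 10 ≤ 9 * n := Nat.div_mul_le_self _ _
    have e2 : (((9 * n / 10 : ℕ) : ℝ)) * 10 ≤ 9 * n := by exact_mod_cast e1
    rw [← hm] at e2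
    linarith
  have g1 := tail_sum n (10 ^ m) Z hZ1 _ (h1 n (by omega) (10 ^ m) hDR (fun _ => 0))
  have g2 := large_sum n m N hmn
  have g3 := split_sum n m N Z
  have hexp : (0 : ℝ) < (10 : ℝ) ^ n := by positivity
  set E := Real.exp (-(c2 * √(n : ℝ))) with hE
  have hE1 : Real.exp (-(c1 * √(n : ℝ))) ≤ E := by
    apply Real.exp_le_exp.mpr
    have : c2 * √(n : ℝ) ≤ c1 * √(n : ℝ) := mul_le_mul_of_nonneg_right (min_le_left _ _) hs0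
    linarith
  have hE2 : 1 / (Z : ℝ) ≤ E := by
    rw [div_le_iff₀ hZ0R]
    have e1 : Real.exp (c2 * √(n : ℝ)) ≤ Z := by
      refine le_trans ?_ hZ
      apply Real.exp_le_exp.mpr
      exact mul_le_mul_of_nonneg_right (min_le_right _ _) hs0
    calc (1 : ℝ) = E * Real.exp (c2 * √(n : ℝ)) := by
          rw [hE, ← Real.exp_add]
          simp
      _ ≤ E * Z := mul_le_mul_of_nonneg_left e1 (Real.exp_pos _).le
  have g4 : ((∑ P ∈ Pal n, ((Icc 1 N).filter (fun d : ℕ => 10 ^ m ≤ d ∧ d ^ 2 ∣ P)).card : ℕ) : ℝ) ≤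
      10 ^ n * E := by
    have e1 : (10 ^ (2 * (n - m) + 1) * 10 ^ (n / 2 + 1) * 10 ^ (2 * (n - m) + 1)) * 10 ^ (n / 10) ≤
        10 ^ (n + 7) := by
      rw [← pow_add, ← pow_add, ← pow_add]
      apply Nat.pow_le_pow_right (by norm_num)
      omega
    have e2 : (∑ P ∈ Pal n, ((Icc 1 N).filter (fun d : ℕ => 10 ^ m ≤ d ∧ d ^ 2 ∣ P)).card) *
        10 ^ (n / 10) ≤ 10 ^ (n + 7) := (Nat.mul_le_mul_right _ g2).trans e1
    have e3 : ((∑ P ∈ Pal n, ((Icc 1 N).filter (fun d : ℕ => 10 ^ m ≤ d ∧ d ^ 2 ∣ P)).card : ℕ) : ℝ) *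
        10 ^ (n / 10) ≤ 10 ^ (n + 7) := by exact_mod_cast e2
    have e4 := h2 n (by omega)
    have e5 : (0 : ℝ) < (10 : ℝ) ^ (n / 10) := by positivity
    have e6 : (10 : ℝ) ^ 7 ≤ E * 10 ^ (n / 10) := by
      calc (10 : ℝ) ^ 7 = E * (10 ^ 7 * Real.exp (c2 * √(n : ℝ))) := by
            have : E * Real.exp (c2 * √(n : ℝ)) = 1 := by
              rw [hE, ← Real.exp_add]
              simp
            calc (10 : ℝ) ^ 7 = 10 ^ 7 * (E * Real.exp (c2 * √(n : ℝ))) := by rw [this, mul_one]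
              _ = _ := by ring
        _ ≤ E * 10 ^ (n / 10) := mul_le_mul_of_nonneg_left e4 (Real.exp_pos _).le
    have e7 : ((∑ P ∈ Pal n, ((Icc 1 N).filter (fun d : ℕ => 10 ^ m ≤ d ∧ d ^ 2 ∣ P)).card : ℕ) : ℝ) *
        10 ^ (n / 10) ≤ 10 ^ n * E * 10 ^ (n / 10) := by
      calc _ ≤ (10 : ℝ) ^ (n + 7) := e3
        _ = 10 ^ n * 10 ^ 7 := pow_add _ _ _
        _ ≤ 10 ^ n * (E * 10 ^ (n / 10)) := mul_le_mul_of_nonneg_left e6 hexp.le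
        _ = _ := by ring
    exact le_of_mul_le_mul_right e7 e5
  have g5 : (∑ P ∈ Pal n, (((Icc 1 N).filter
      (fun d : ℕ => Z < d ∧ d.Coprime 10 ∧ d ^ 2 ∣ P)).card : ℝ)) ≤
      (18 / Z * 10 ^ n + 10 ^ n * Real.exp (-(c1 * √(n : ℝ)))) + 10 ^ n * E := by
    have e1 : (((∑ P ∈ Pal n, ((Icc 1 N).filter
        (fun d : ℕ => Z < d ∧ d.Coprime 10 ∧ d ^ 2 ∣ P)).card : ℕ)) : ℝ) ≤
        ((∑ d ∈ ((Icc 1 (10 ^ m)).filter (fun d : ℕ => d.Coprime 10)).filter (fun d => Z < d),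
          cl n (d ^ 2) 0 +
        ∑ P ∈ Pal n, ((Icc 1 N).filter (fun d : ℕ => 10 ^ m ≤ d ∧ d ^ 2 ∣ P)).card : ℕ) : ℝ) := by
      exact_mod_cast g3
    rw [Nat.cast_add] at e1
    rw [← Nat.cast_sum]
    linarith
  have g6 : 18 / (Z : ℝ) * 10 ^ n ≤ 18 * (10 ^ n * E) := by
    have : 18 / (Z : ℝ) * 10 ^ n = 18 * (10 ^ n * (1 / Z)) := by ring
    rw [this]
    have := mul_le_mul_of_nonneg_left hE2 hexp.le
    linarith
  have g7 : (10 : ℝ) ^ n * Real.exp (-(c1 * √(n : ℝ))) ≤ 10 ^ n * E :=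
    mul_le_mul_of_nonneg_left hE1 hexp.le
  have g8 := h3 n (by omega)
  calc _ ≤ (18 / Z * 10 ^ n + 10 ^ n * Real.exp (-(c1 * √(n : ℝ)))) + 10 ^ n * E := g5
    _ ≤ 10 ^ n * (20 * E) := by linarith
    _ ≤ 10 ^ n * Real.exp (-(c2 / 2 * √(n : ℝ))) := mul_le_mul_of_nonneg_left g8 hexp.le

end Pool.Agent.Helper55.SQX
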