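import Pool.Agent.Helper55.SQX.E3
import Pool.Agent.Helper55.SQX.Tail

/-! SQX-Step: squarefree palindromes in a class against the truncated Moebius sum. -/

namespace Pool.Agent.Helper55.SQX

open Finset Pool.Agent.Helper10 Pool.Agent.Helper10.P5 Pool.Agent.Helper10.P4
  Pool.Agent.Helper10.SQ

open Classical in
theorem step_point (n Z P : ℕ) (hP : P ∈ Pal n) (h4 : ¬ 4 ∣ P) (h25 : ¬ 25 ∣ P) :
    |(if Squarefree P then (1 : ℝ) else 0) - ∑ d ∈ (Icc 1 Z).filter (fun d : ℕ => d.Coprime 10),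
      (if d ^ 2 ∣ P then (ArithmeticFunction.moebius d : ℝ) else 0)| ≤
    (((Icc 1 (10 ^ (2 * n + 1))).filter
      (fun d : ℕ => Z < d ∧ d.Coprime 10 ∧ d ^ 2 ∣ P)).card : ℝ) := by
  have h3 : P < 10 ^ (2 * n + 1) := by
    unfold Pal at hP
    rw [Finset.mem_filter, Finset.mem_range] at hP
    exact hP.1
  have hP0 : P ≠ 0 := by
    rintro rfl
    unfold Pal at hP
    rw [Finset.mem_filter] at hP
    have h := hP.2.1
    simp at h
  set N := 10 ^ (2 * n + 1) with hNdef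
  have hN : ∀ d : ℕ, d ^ 2 ∣ P → d ≤ N := by
    intro d hd
    have h5 := Nat.le_of_dvd (Nat.pos_of_ne_zero hP0) hd
    have h6 : d ≤ d ^ 2 := Nat.le_self_pow (by norm_num) d
    omega
  have h1 := mu_sq_sum P N hP0 h4 h25 hN
  have h2 : (if Squarefree P then (1 : ℝ) else 0) =
      ∑ d ∈ ((Icc 1 N).filter (fun d : ℕ => d.Coprime 10)).filter (fun d => d ^ 2 ∣ P),
        (ArithmeticFunction.moebius d : ℝ) := by
    have h5 : ((∑ d ∈ ((Icc 1 N).filter (fun d : ℕ => d.Coprime 10)).filter (fun d => d ^ 2 ∣ P),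
      (ArithmeticFunction.moebius d : ℤ) : ℤ) : ℝ) = ((if Squarefree P then 1 else 0 : ℤ) : ℝ) := by
      rw [h1]
    push_cast at h5
    rw [h5]
  have hlow : ∑ d ∈ (Icc 1 Z).filter (fun d : ℕ => d.Coprime 10),
      (if d ^ 2 ∣ P then (ArithmeticFunction.moebius d : ℝ) else 0) =
      ∑ d ∈ (((Icc 1 N).filter (fun d : ℕ => d.Coprime 10)).filter (fun d => d ^ 2 ∣ P)).filter
        (fun d => d ≤ Z), (ArithmeticFunction.moebius d : ℝ) := by
    rw [← Finset.sum_filter]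
    apply Finset.sum_congr _ (fun _ _ => rfl)
    ext d
    simp only [Finset.mem_filter, Finset.mem_Icc]
    constructor
    · rintro ⟨⟨⟨a1, a2⟩, a3⟩, a4⟩
      exact ⟨⟨⟨⟨a1, hN d a4⟩, a3⟩, a4⟩, a2⟩
    · rintro ⟨⟨⟨⟨a1, a2⟩, a3⟩, a4⟩, a5⟩
      exact ⟨⟨⟨a1, a5⟩, a3⟩, a4⟩
  rw [h2, hlow]
  have hsp := Finset.sum_filter_add_sum_filter_not
    (((Icc 1 N).filter (fun d : ℕ => d.Coprime 10)).filter (fun d => d ^ 2 ∣ P))
    (fun d => d ≤ Z) (fun d => (ArithmeticFunction.moebius d : ℝ))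
  rw [← hsp, add_sub_cancel_left]
  refine (Finset.abs_sum_le_sum_abs _ _).trans ?_
  have hmu : ∀ d : ℕ, |(ArithmeticFunction.moebius d : ℝ)| ≤ 1 := by
    intro d
    have := ArithmeticFunction.abs_moebius_le_one (n := d)
    exact_mod_cast this
  refine (Finset.sum_le_sum (fun d _ => hmu d)).trans ?_
  rw [Finset.sum_const, nsmul_eq_mul, mul_one]
  apply le_of_eq
  congr 2
  ext d
  simp only [Finset.mem_filter, Finset.mem_Icc]
  constructor
  · rintro ⟨⟨⟨⟨a1, a2⟩, a3⟩, a4⟩, a5⟩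
    exact ⟨⟨a1, a2⟩, by omega, a3, a4⟩
  · rintro ⟨⟨a1, a2⟩, a3, a4, a5⟩
    exact ⟨⟨⟨⟨a1, a2⟩, a4⟩, a5⟩, by omega⟩

open Classical in
theorem step (n q a Z : ℕ) :
    |(((Pal n).filter (fun N => Squarefree N ∧ N ≡ a [MOD q])).card : ℝ) -
      ∑ d ∈ (Icc 1 Z).filter (fun d : ℕ => d.Coprime 10), (ArithmeticFunction.moebius d : ℝ) *
        (((Pal n).filter (fun P => ¬ 4 ∣ P ∧ ¬ 25 ∣ P ∧ P ≡ a [MOD q] ∧ d ^ 2 ∣ P)).card : ℝ)| ≤
    ∑ P ∈ Pal n, (((Icc 1 (10 ^ (2 * n + 1))).filter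
      (fun d : ℕ => Z < d ∧ d.Coprime 10 ∧ d ^ 2 ∣ P)).card : ℝ) := by
  set G := (Pal n).filter (fun P => ¬ 4 ∣ P ∧ ¬ 25 ∣ P ∧ P ≡ a [MOD q]) with hG
  have e1 : (((Pal n).filter (fun N => Squarefree N ∧ N ≡ a [MOD q])).card : ℝ) =
      ∑ P ∈ G, (if Squarefree P then (1 : ℝ) else 0) := by
    rw [← Finset.sum_filter, Finset.sum_const, nsmul_eq_mul, mul_one]
    congr 2
    ext P
    rw [hG]
    simp only [Finset.mem_filter]
    constructor
    · rintro ⟨a1, a2, a3⟩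
      refine ⟨⟨a1, ?_, ?_, a3⟩, a2⟩
      · intro h
        rw [Nat.squarefree_iff_prime_squarefree] at a2
        exact a2 2 Nat.prime_two h
      · intro h
        rw [Nat.squarefree_iff_prime_squarefree] at a2
        exact a2 5 Nat.prime_five h
    · rintro ⟨⟨a1, a2, a3, a4⟩, a5⟩
      exact ⟨a1, a5, a4⟩
  have e2 : ∑ d ∈ (Icc 1 Z).filter (fun d : ℕ => d.Coprime 10), (ArithmeticFunction.moebius d : ℝ) *
        (((Pal n).filter (fun P => ¬ 4 ∣ P ∧ ¬ 25 ∣ P ∧ P ≡ a [MOD q] ∧ d ^ 2 ∣ P)).card : ℝ) =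
      ∑ P ∈ G, ∑ d ∈ (Icc 1 Z).filter (fun d : ℕ => d.Coprime 10),
        (if d ^ 2 ∣ P then (ArithmeticFunction.moebius d : ℝ) else 0) := by
    rw [Finset.sum_comm]
    apply Finset.sum_congr rfl
    intro d _
    rw [← Finset.sum_filter, Finset.sum_const, nsmul_eq_mul, mul_comm]
    congr 3
    ext P
    rw [hG]
    simp only [Finset.mem_filter]
    tauto
  rw [e1, e2, ← Finset.sum_sub_distrib]
  refine (Finset.abs_sum_le_sum_abs _ _).trans ?_
  calc ∑ P ∈ G, |(if Squarefree P then (1 : ℝ) else 0) -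
        ∑ d ∈ (Icc 1 Z).filter (fun d : ℕ => d.Coprime 10),
          (if d ^ 2 ∣ P then (ArithmeticFunction.moebius d : ℝ) else 0)|
      ≤ ∑ P ∈ G, (((Icc 1 (10 ^ (2 * n + 1))).filter
          (fun d : ℕ => Z < d ∧ d.Coprime 10 ∧ d ^ 2 ∣ P)).card : ℝ) := by
        apply Finset.sum_le_sum
        intro P hP
        rw [hG, Finset.mem_filter] at hP
        exact step_point n Z P hP.1 hP.2.1 hP.2.2.1
    _ ≤ _ := by
        apply Finset.sum_le_sum_of_subset_of_nonneg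
        · rw [hG]
          exact Finset.filter_subset _ _
        · intro P _ _
          positivity

end Pool.Agent.Helper55.SQX
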